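import Mathlib

/-!
# MP_38e082_lc, Q1: a positive theorem for singular limits of measurable cardinals

`(κ, η, θ) → ι` is the relation of the problem, for set mappings `f` on a set of size `κ` with
`|f(x)| < κ` (the standard convention; without it the relation fails trivially).

THEOREM (ZFC). Let `λ` be a cardinal which is the supremum of a family `κ_i < λ` (`i ∈ I`) of
measurable cardinals with `|I| < κ_i` (so `λ` is a singular strong limit cardinal, and every
cofinality is allowed), and let `U_i` be `κ_i`-complete nonprincipal ultrafilters on `κ_i` with the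
following selection property: whenever `(B^y)`, `y ∈ Y`, are `λ⁺` many members of `∏ U_i`, there are
`λ⁺` many `y` and sets `A_i ⊆ κ_i` with `sup |A_i| = λ` and `A_i ⊆ B^y_i` for all `i` and all these
`y`. Then `(λ⁺, λ⁺, λ) → μ` holds for ALL `μ < λ`, in particular for `μ = (cf λ)⁺`.

The selection property holds as soon as every family of `λ⁺` many members of `∏ U_i` has a lower
bound in `∏ U_i` modulo sets of indices `i` with `κ_i` bounded below `λ` (`selection_of_directed`).
-/

namespace Pool.Agent.Lib_MP_38e082_lm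

open Cardinal Set

universe u

/-- the relation `(kap, eta, theta) → iota` of the problem, for set mappings `f` with
`|f x| < kap` -/
def Arrow (kap eta theta iota : Cardinal.{u}) : Prop :=
  ∀ (S : Type u) (f : S → Set S), #S = kap → (∀ x, x ∉ f x) → (∀ x, #(f x) < kap) →
    (∀ X : Set S, #X = eta → #(⋂ x ∈ X, f x : Set S) < theta) →
    ∃ H : Set S, #H = iota ∧ ∀ x ∈ H, ∀ y ∈ H, x ≠ y → y ∉ f x

/-- `U` is a `kap`-complete nonprincipal ultrafilter on the (uncountable) cardinal `kap` -/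
structure IsMeasure (kap : Cardinal.{u}) (U : Ultrafilter kap.ord.ToType) : Prop where
  unc : ℵ₀ < kap
  comp : ∀ A : Set (Set kap.ord.ToType), #A < kap → (∀ a ∈ A, a ∈ U) → ⋂₀ A ∈ U
  nonpr : ∀ a, {a} ∉ U

/-- the selection property of the family `U i` -/
def Selection (lam : Cardinal.{u}) {I : Type u} (kap : I → Cardinal.{u})
    (U : ∀ i, Ultrafilter (kap i).ord.ToType) : Prop :=
  ∀ (Y : Type u) (B : Y → ∀ i, Set (kap i).ord.ToType), #Y = Order.succ lam →
    (∀ y i, B y i ∈ U i) →
    ∃ (Z : Set Y) (A : ∀ i, Set (kap i).ord.ToType), #Z = Order.succ lam ∧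
      (∀ c < lam, ∃ i, c ≤ #(A i)) ∧ ∀ y ∈ Z, ∀ i, A i ⊆ B y i

/-- `lam⁺` many members of the product of the `U i` have a lower bound modulo small indices -/
def Directed (lam : Cardinal.{u}) {I : Type u} (kap : I → Cardinal.{u})
    (U : ∀ i, Ultrafilter (kap i).ord.ToType) : Prop :=
  ∀ (Y : Type u) (B : Y → ∀ i, Set (kap i).ord.ToType), #Y = Order.succ lam →
    (∀ y i, B y i ∈ U i) →
    ∃ A : ∀ i, Set (kap i).ord.ToType, (∀ i, A i ∈ U i) ∧
      ∀ y, ∃ c < lam, ∀ i, c < kap i → A i ⊆ B y i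

/-! ### measurable cardinals -/

section Measure

variable {kap : Cardinal.{u}} {U : Ultrafilter kap.ord.ToType}

theorem inter_mem (h : IsMeasure kap U) {W : Type u} (hW : #W < kap)
    {s : W → Set kap.ord.ToType} (hs : ∀ w, s w ∈ U) : (⋂ w, s w) ∈ U := by
  have := h.comp (range s) (lt_of_le_of_lt mk_range_le hW) (by rintro _ ⟨w, rfl⟩; exact hs w)
  rwa [sInter_range] at this

theorem small_notMem (h : IsMeasure kap U) {A : Set kap.ord.ToType} (hA : #A < kap) : A ∉ U := by
  intro hU
  have h1 : (⋂ a : A, ({(a : kap.ord.ToType)} : Set kap.ord.ToType)ᶜ) ∈ U :=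
    inter_mem h hA fun a => (Ultrafilter.compl_mem_iff_notMem).2 (h.nonpr a)
  obtain ⟨x, hx1, hx2⟩ := U.nonempty_of_mem (Filter.inter_mem hU h1)
  have := mem_iInter.1 hx2 ⟨x, hx1⟩
  exact this rfl

theorem card_mem (h : IsMeasure kap U) {A : Set kap.ord.ToType} (hA : A ∈ U) : #A = kap := by
  refine le_antisymm ?_ (not_lt.1 fun h' => small_notMem h h' hA)
  exact (mk_set_le A).trans_eq (mk_ord_toType kap)

/-- one of fewer than `kap` many pieces is large -/
theorem piece (h : IsMeasure kap U) {W : Type u} (hW : #W < kap) {A : Set kap.ord.ToType}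
    (hA : A ∈ U) (c : kap.ord.ToType → W) : ∃ w, {a | a ∈ A ∧ c a = w} ∈ U := by
  by_contra hcon
  push Not at hcon
  have h1 : (⋂ w : W, ({a | a ∈ A ∧ c a = w} : Set kap.ord.ToType)ᶜ) ∈ U :=
    inter_mem h hW fun w => (Ultrafilter.compl_mem_iff_notMem).2 (hcon w)
  obtain ⟨x, hx1, hx2⟩ := U.nonempty_of_mem (Filter.inter_mem hA h1)
  exact mem_iInter.1 hx2 (c x) ⟨hx1, rfl⟩

theorem Iio_lt (j : kap.ord.ToType) : #(Iio j) < kap := by
  simpa using mk_Iio_lt j

/-- tails are large -/
theorem tail_mem (h : IsMeasure kap U) (j : kap.ord.ToType) : {a | j < a} ∈ U := by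
  have h1 : (Iic j : Set kap.ord.ToType) ∉ U := by
    apply small_notMem h
    have : (Iic j : Set kap.ord.ToType) ⊆ Iio j ∪ {j} := fun x hx => by
      rcases lt_or_eq_of_le (mem_Iic.1 hx) with h | h
      · exact Or.inl h
      · exact Or.inr h
    refine (mk_le_mk_of_subset this).trans_lt ((mk_union_le _ _).trans_lt ?_)
    exact add_lt_of_lt h.unc.le (Iio_lt j) (by simpa using one_lt_aleph0.trans h.unc)
  have h2 := (Ultrafilter.compl_mem_iff_notMem).2 h1
  convert h2 using 1
  ext x; simp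

/-- `kap` is regular: fewer than `kap` many small sets have a small union -/
theorem union_lt (h : IsMeasure kap U) {X W : Type u} (hW : #W < kap) (A : W → Set X)
    (hA : ∀ w, #(A w) < kap) : #(⋃ w, A w : Set X) < kap := by
  by_contra hcon
  rw [not_lt] at hcon
  nth_rewrite 1 [← mk_ord_toType kap] at hcon
  obtain ⟨e⟩ := hcon
  have hex : ∀ j, ∃ w, (e j : X) ∈ A w := fun j => mem_iUnion.1 (e j).2
  choose c hc using hex
  obtain ⟨w, hw⟩ := piece h hW (A := Set.univ) Filter.univ_mem c
  refine small_notMem h ?_ hw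
  have hinj : Function.Injective
      (fun j : {a | a ∈ Set.univ ∧ c a = w} =>
        (⟨(e j.1 : X), by have := hc j.1; rw [j.2.2] at this; exact this⟩ : A w)) := by
    intro a b hab
    have := congrArg Subtype.val hab
    exact Subtype.ext (e.injective (Subtype.ext this))
  exact (mk_le_of_injective hinj).trans_lt (hA w)

/-- `kap` is a strong limit -/
theorem pow_lt (h : IsMeasure kap U) {V : Type u} (hV : #V < kap) : #(Set V) < kap := by
  by_contra hcon
  rw [not_lt] at hcon
  nth_rewrite 1 [← mk_ord_toType kap] at hcon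
  obtain ⟨e⟩ := hcon
  have h1 : ∀ v : V, ∃ b : Prop, {j | (v ∈ e j) ↔ b} ∈ U := by
    intro v
    by_cases hv : {j | v ∈ e j} ∈ U
    · refine ⟨True, ?_⟩
      simpa using hv
    · refine ⟨False, ?_⟩
      have := (Ultrafilter.compl_mem_iff_notMem).2 hv
      convert this using 1
      ext j; simp
  choose b hb using h1
  have h2 := inter_mem h hV hb
  refine small_notMem h ?_ h2
  have h3 : (⋂ v, {j | (v ∈ e j) ↔ b v} : Set kap.ord.ToType).Subsingleton := by
    intro j hj k hk
    apply e.injective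
    ext v
    exact (mem_iInter.1 hj v).trans (mem_iInter.1 hk v).symm
  have h4 : #(⋂ v, {j | (v ∈ e j) ↔ b v} : Set kap.ord.ToType) ≤ 1 :=
    le_one_iff_subsingleton.2 h3.coe_sort
  exact h4.trans_lt (one_lt_aleph0.trans h.unc)

end Measure

/-! ### the chain of small sets and the copies -/

section Chain

variable {S : Type u} (f : S → Set S)

open Classical in
/-- a point outside of `E` and of the images of `E`, whose image has trace `p` on `E` -/
noncomputable def pt (s0 : S) (E p : Set S) : S :=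
  if h : ∃ z, z ∉ E ∧ (∀ e ∈ E, z ∉ f e) ∧ f z ∩ E = p then h.choose else s0

theorem pt_spec (s0 : S) {E : Set S} {y : S} (h1 : y ∉ E) (h2 : ∀ e ∈ E, y ∉ f e) :
    pt f s0 E (f y ∩ E) ∉ E ∧ (∀ e ∈ E, pt f s0 E (f y ∩ E) ∉ f e) ∧
      f (pt f s0 E (f y ∩ E)) ∩ E = f y ∩ E := by
  have h : ∃ z, z ∉ E ∧ (∀ e ∈ E, z ∉ f e) ∧ f z ∩ E = f y ∩ E := ⟨y, h1, h2, rfl⟩
  rw [pt, dif_pos h]
  exact h.choose_spec

variable {J : Type u} [LinearOrder J] [WellFoundedLT J]

/-- the chain of small sets: at stage `j` all traces on the earlier sets are realised -/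
noncomputable def ch (s0 : S) : J → Set S :=
  (wellFounded_lt (α := J)).fix fun j E =>
    {x | ∃ k, ∃ hk : k < j, ∃ p, p ⊆ E k hk ∧ x = pt f s0 (E k hk) p}

theorem ch_eq (s0 : S) (j : J) :
    ch f s0 j = {x | ∃ k < j, ∃ p, p ⊆ ch f s0 k ∧ x = pt f s0 (ch f s0 k) p} := by
  rw [ch, WellFounded.fix_eq]
  ext x
  constructor
  · rintro ⟨k, hk, p, hp, rfl⟩
    exact ⟨k, hk, p, hp, rfl⟩
  · rintro ⟨k, hk, p, hp, rfl⟩
    exact ⟨k, hk, p, hp, rfl⟩

/-- the copy of `y` at stage `j` -/
noncomputable def cp (s0 : S) (j : J) (y : S) : S := pt f s0 (ch f s0 j) (f y ∩ ch f s0 j)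

theorem cp_mem (s0 : S) {j k : J} (h : j < k) (y : S) : cp f s0 j y ∈ ch f s0 k := by
  rw [ch_eq]
  exact ⟨j, h, _, inter_subset_right, rfl⟩

/-- the points which have copies at all stages -/
def Ok (J : Type u) [LinearOrder J] [WellFoundedLT J] (s0 : S) (y : S) : Prop :=
  ∀ j : J, y ∉ ch f s0 j ∧ ∀ e ∈ ch f s0 j, y ∉ f e

variable {f}

theorem cp_notMem {s0 y : S} (h : Ok f J s0 y) (j : J) : cp f s0 j y ∉ ch f s0 j :=
  (pt_spec f s0 (h j).1 (h j).2).1

theorem cp_notMem_im {s0 y : S} (h : Ok f J s0 y) (j : J) {e : S} (he : e ∈ ch f s0 j) :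
    cp f s0 j y ∉ f e :=
  (pt_spec f s0 (h j).1 (h j).2).2.1 e he

theorem cp_trace {s0 y : S} (h : Ok f J s0 y) (j : J) {e : S} (he : e ∈ ch f s0 j) :
    e ∈ f (cp f s0 j y) ↔ e ∈ f y := by
  have := (pt_spec f s0 (h j).1 (h j).2).2.2
  constructor
  · intro h'
    exact (this.subset ⟨h', he⟩).1
  · intro h'
    exact (this.superset ⟨h', he⟩).1

theorem cp_inj {s0 y y' : S} {j k : J} (h : Ok f J s0 y') (hjk : j < k) :
    cp f s0 j y ≠ cp f s0 k y' := by
  intro he
  have := cp_mem f s0 hjk y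
  rw [he] at this
  exact cp_notMem h k this

end Chain

section Cards

variable {kap : Cardinal.{u}} {U : Ultrafilter kap.ord.ToType} {S : Type u} {f : S → Set S}

theorem ch_lt (h : IsMeasure kap U) (s0 : S) (j : kap.ord.ToType) : #(ch f s0 j) < kap := by
  induction j using (wellFounded_lt (α := kap.ord.ToType)).induction with
  | _ j ih =>
    have h1 : ch f s0 j ⊆ ⋃ k : Iio j, (fun p => pt f s0 (ch f s0 (k : kap.ord.ToType)) p) ''
        (𝒫 (ch f s0 (k : kap.ord.ToType))) := by
      rw [ch_eq]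
      rintro x ⟨k, hk, p, hp, rfl⟩
      exact mem_iUnion.2 ⟨⟨k, hk⟩, p, hp, rfl⟩
    refine (mk_le_mk_of_subset h1).trans_lt (union_lt h (Iio_lt j) _ ?_)
    rintro ⟨k, hk⟩
    refine mk_image_le.trans_lt ?_
    have : #(𝒫 (ch f s0 k)) = #(Set (ch f s0 k)) := by
      rw [mk_powerset, mk_set]
    rw [this]
    exact pow_lt h (ih k hk)

/-- few points are not ok -/
theorem notOk_le (h : IsMeasure kap U) {lam : Cardinal.{u}} (hk : kap ≤ lam)
    (hf : ∀ x, #(f x) ≤ lam) (s0 : S) :
    #{y | ¬ Ok f kap.ord.ToType s0 y} ≤ lam := by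
  have hl : ℵ₀ ≤ lam := h.unc.le.trans hk
  have h1 : {y | ¬ Ok f kap.ord.ToType s0 y} ⊆
      ⋃ j : kap.ord.ToType, (ch f s0 j ∪ ⋃ e : ch f s0 j, f e) := by
    intro y hy
    simp only [Ok, mem_ofPred_eq, not_forall, not_and_or, not_not] at hy
    obtain ⟨j, hj | ⟨e, he, hye⟩⟩ := hy
    · exact mem_iUnion.2 ⟨j, Or.inl hj⟩
    · exact mem_iUnion.2 ⟨j, Or.inr (mem_iUnion.2 ⟨⟨e, he⟩, hye⟩)⟩
  have hu : ∀ (W : Type u) (A : W → Set S), #W ≤ lam → (∀ w, #(A w) ≤ lam) →
      #(⋃ w, A w : Set S) ≤ lam := by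
    intro W A hW hA
    refine (mk_iUnion_le A).trans ?_
    refine (mul_le_mul' hW (ciSup_le' hA)).trans ?_
    exact (mul_eq_self hl).le
  refine (mk_le_mk_of_subset h1).trans (hu _ _ ?_ ?_)
  · rw [mk_ord_toType]; exact hk
  · intro j
    refine (mk_union_le _ _).trans (add_le_of_le hl ((ch_lt h s0 j).le.trans hk) ?_)
    exact hu _ _ ((ch_lt h s0 j).le.trans hk) fun e => hf e

end Cards

/-! ### chains of the relation `R` give free sets -/

section Free

variable {kap : Cardinal.{u}} {U : Ultrafilter kap.ord.ToType} {S : Type u} {f : S → Set S}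

/-- choice of an increasing sequence in large sets -/
theorem seq (h : IsMeasure kap U) {W : Type u} [LinearOrder W] [WellFoundedLT W] (hW : #W < kap)
    (D : W → kap.ord.ToType → W → Set kap.ord.ToType) (D0 : W → Set kap.ord.ToType)
    (hD0 : ∀ w, D0 w ∈ U) (P : W → kap.ord.ToType → Prop)
    (hP : ∀ w, ∀ j ∈ D0 w, P w j)
    (hD : ∀ w v, w < v → ∀ j, P w j → D w j v ∈ U) :
    ∃ j : W → kap.ord.ToType, (∀ w, j w ∈ D0 w) ∧ ∀ w v, w < v → j v ∈ D w (j w) v := by
  classical
  -- at stage `v` choose a point in all the sets given by the earlier points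
  let good : ∀ v : W, (∀ w, w < v → kap.ord.ToType) → Set kap.ord.ToType := fun v g =>
    {j | j ∈ D0 v ∧ ∀ w (hw : w < v), P w (g w hw) → j ∈ D w (g w hw) v}
  have hgood : ∀ v g, (good v g).Nonempty := by
    intro v g
    have h1 : (⋂ w : W, {j | ∀ hw : w < v, P w (g w hw) → j ∈ D w (g w hw) v}) ∈ U := by
      refine inter_mem h hW fun w => ?_
      by_cases hw : w < v
      · by_cases hp : P w (g w hw)
        · refine U.sets_of_superset (hD w v hw _ hp) ?_
          intro j hj _ _
          exact hj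
        · refine U.sets_of_superset Filter.univ_mem ?_
          intro j _ _ hp'
          exact absurd hp' hp
      · refine U.sets_of_superset Filter.univ_mem ?_
        intro j _ hw' _
        exact absurd hw' hw
    obtain ⟨j, hj1, hj2⟩ := U.nonempty_of_mem (Filter.inter_mem (hD0 v) h1)
    exact ⟨j, hj1, fun w hw hp => mem_iInter.1 hj2 w hw hp⟩
  let j : W → kap.ord.ToType := (wellFounded_lt (α := W)).fix fun v g => (hgood v g).choose
  have hj : ∀ v, j v ∈ good v fun w _ => j w := by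
    intro v
    have : j v = (hgood v fun w _ => j w).choose := WellFounded.fix_eq _ _ _
    rw [this]
    exact (hgood v fun w _ => j w).choose_spec
  refine ⟨j, fun w => (hj w).1, fun w v hwv => (hj v).2 w hwv (hP w _ (hj w).1)⟩

/-- the relation: almost all copies of `y` are outside of `f y'` -/
def R (f : S → Set S) (U : Ultrafilter kap.ord.ToType) (s0 : S) (y y' : S) : Prop :=
  {j | cp f s0 j y ∉ f y'} ∈ U

theorem free_of_chain (h : IsMeasure kap U) {mu : Cardinal.{u}} (hmu : mu < kap) (s0 : S)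
    (y : mu.ord.ToType → S) (hok : ∀ w, Ok f kap.ord.ToType s0 (y w))
    (hR : ∀ w v, w < v → R f U s0 (y w) (y v)) :
    ∃ H : Set S, #H = mu ∧ ∀ a ∈ H, ∀ b ∈ H, a ≠ b → b ∉ f a := by
  have hW : #(mu.ord.ToType) < kap := by rwa [mk_ord_toType]
  have hD0 : ∀ w, (⋂ v : mu.ord.ToType, {j | w < v → cp f s0 j (y w) ∉ f (y v)}) ∈ U := by
    intro w
    refine inter_mem h hW fun v => ?_
    by_cases hv : w < v
    · exact U.sets_of_superset (hR w v hv) fun j hj _ => hj
    · exact U.sets_of_superset Filter.univ_mem fun j _ h' => absurd h' hv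
  obtain ⟨j, hj0, hj1⟩ := seq h hW (fun w k v => {j | k < j})
    (fun w => ⋂ v : mu.ord.ToType, {j | w < v → cp f s0 j (y w) ∉ f (y v)}) hD0
    (fun _ _ => True) (fun _ _ _ => trivial) (fun w v _ k _ => tail_mem h k)
  have key : ∀ w v, w < v → cp f s0 (j w) (y w) ≠ cp f s0 (j v) (y v) ∧
      cp f s0 (j v) (y v) ∉ f (cp f s0 (j w) (y w)) ∧
      cp f s0 (j w) (y w) ∉ f (cp f s0 (j v) (y v)) := by
    intro w v hwv
    have hlt : j w < j v := hj1 w v hwv
    have hmem := cp_mem f s0 hlt (y w)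
    refine ⟨cp_inj (hok v) hlt, cp_notMem_im (hok v) _ hmem, ?_⟩
    rw [cp_trace (hok v) _ hmem]
    exact mem_iInter.1 (hj0 w) v hwv
  have hinj : Function.Injective fun w => cp f s0 (j w) (y w) := by
    intro w v hwv
    rcases lt_trichotomy w v with h' | h' | h'
    · exact absurd hwv (key w v h').1
    · exact h'
    · exact absurd hwv.symm (key v w h').1
  refine ⟨range fun w => cp f s0 (j w) (y w), ?_, ?_⟩
  · rw [mk_range_eq _ hinj, mk_ord_toType]
  · rintro _ ⟨w, rfl⟩ _ ⟨v, rfl⟩ hne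
    rcases lt_trichotomy w v with h' | h' | h'
    · exact (key w v h').2.1
    · exact absurd (by rw [h']) hne
    · exact (key v w h').2.2

end Free

/-! ### the theorem -/

section Main

variable {lam : Cardinal.{u}} {I : Type u} {kap : I → Cardinal.{u}}
  {U : ∀ i, Ultrafilter (kap i).ord.ToType}

/-- a sequence avoiding small sets given by the earlier points -/
theorem avoid {S J : Type u} [LinearOrder J] [WellFoundedLT J] (hJ : #J ≤ lam) (hl : ℵ₀ ≤ lam)
    (Y0 : Set S) (hY0 : lam < #Y0) (N : S → Set S) (hN : ∀ y ∈ Y0, #(N y) ≤ lam) :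
    ∃ y : J → S, (∀ j, y j ∈ Y0) ∧ ∀ j k, j < k → y k ∉ N (y j) := by
  classical
  have hex : ∀ (k : J) (g : ∀ j, j < k → S), ∃ z ∈ Y0, ∀ j (hj : j < k), g j hj ∈ Y0 →
      z ∉ N (g j hj) := by
    intro k g
    by_contra hcon
    push Not at hcon
    have hsub : Y0 ⊆ ⋃ j : J, {z | ∃ hj : j < k, g j hj ∈ Y0 ∧ z ∈ N (g j hj)} := by
      intro z hz
      obtain ⟨j, hj, h1, h2⟩ := hcon z hz
      exact mem_iUnion.2 ⟨j, hj, h1, h2⟩
    have hle : #(⋃ j : J, {z | ∃ hj : j < k, g j hj ∈ Y0 ∧ z ∈ N (g j hj)} : Set S) ≤ lam := by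
      refine (mk_iUnion_le _).trans ?_
      refine (mul_le_mul' hJ (ciSup_le' fun j => ?_)).trans (mul_eq_self hl).le
      by_cases hj : j < k
      · by_cases hg : g j hj ∈ Y0
        · refine (mk_le_mk_of_subset ?_).trans (hN _ hg)
          rintro z ⟨_, _, hz⟩
          exact hz
        · have : {z | ∃ hj : j < k, g j hj ∈ Y0 ∧ z ∈ N (g j hj)} = (∅ : Set S) := by
            ext z
            simp only [mem_ofPred_eq, mem_empty_iff_false, iff_false]
            rintro ⟨_, h1, _⟩
            exact hg h1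
          rw [this]; simp
      · have : {z | ∃ hj : j < k, g j hj ∈ Y0 ∧ z ∈ N (g j hj)} = (∅ : Set S) := by
          ext z
          simp only [mem_ofPred_eq, mem_empty_iff_false, iff_false]
          rintro ⟨h0, _⟩
          exact hj h0
        rw [this]; simp
    exact absurd hY0 (not_lt.2 ((mk_le_mk_of_subset hsub).trans hle))
  let y : J → S := (wellFounded_lt (α := J)).fix fun k g => (hex k g).choose
  have hy : ∀ k, y k ∈ Y0 ∧ ∀ j, j < k → y j ∈ Y0 → y k ∉ N (y j) := by
    intro k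
    have : y k = (hex k fun j _ => y j).choose := WellFounded.fix_eq _ _ _
    rw [this]
    exact (hex k fun j _ => y j).choose_spec
  exact ⟨y, fun j => (hy j).1, fun j k hjk => (hy k).2 j hjk (hy j).1⟩

theorem main (hI : ∀ i, #I < kap i) (hk : ∀ i, kap i < lam) (hs : ∀ c < lam, ∃ i, c < kap i)
    (hU : ∀ i, IsMeasure (kap i) (U i)) (hsel : Selection lam kap U) {mu : Cardinal.{u}}
    (hmu : mu < lam) : Arrow (Order.succ lam) (Order.succ lam) lam mu := by
  classical
  intro S f hS _ hfc hcap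
  by_contra hno
  have hf : ∀ x, #(f x) ≤ lam := fun x => Order.lt_succ_iff.1 (hfc x)
  obtain ⟨i0, hi0⟩ := hs mu hmu
  have hl : ℵ₀ ≤ lam := ((hU i0).unc.trans (hk i0)).le
  have hIl : #I ≤ lam := ((hI i0).trans (hk i0)).le
  have hSne : Nonempty S := by
    rw [← mk_ne_zero_iff, hS]
    exact (lt_of_lt_of_le (Order.bot_lt_succ lam) le_rfl).ne'
  obtain ⟨s0⟩ := hSne
  -- the points with copies
  set Y0 : Set S := {y | ∀ i, Ok f (kap i).ord.ToType s0 y} with hY0
  have hcomp : #(Y0ᶜ : Set S) ≤ lam := by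
    have h1 : (Y0ᶜ : Set S) ⊆ ⋃ i, {y | ¬ Ok f (kap i).ord.ToType s0 y} := by
      intro y hy
      simp only [hY0, mem_compl_iff, mem_ofPred_eq, not_forall] at hy
      obtain ⟨i, hi⟩ := hy
      exact mem_iUnion.2 ⟨i, hi⟩
    refine (mk_le_mk_of_subset h1).trans ((mk_iUnion_le _).trans ?_)
    refine (mul_le_mul' hIl (ciSup_le' fun i => ?_)).trans (mul_eq_self hl).le
    exact notOk_le (hU i) (hk i).le hf s0
  have hY0l : lam < #Y0 := by
    by_contra hcon
    rw [not_lt] at hcon
    have h1 : #S ≤ lam := by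
      rw [← mk_sum_compl Y0]
      exact add_le_of_le hl hcon hcomp
    rw [hS] at h1
    exact absurd (Order.lt_succ lam) (not_lt.2 h1)
  -- the key relation
  let N : S → Set S := fun y =>
    {y' | y' ∈ Y0 ∧ ∀ i, mu < kap i → ¬ R f (U i) s0 y y'}
  have hkey : ∃ y ∈ Y0, lam < #(N y) := by
    by_contra hcon
    push Not at hcon
    obtain ⟨y, hy0, hyN⟩ := avoid (J := (kap i0).ord.ToType)
      (by rw [mk_ord_toType]; exact (hk i0).le) hl Y0 hY0l N hcon
    have hc : ∀ x z : (kap i0).ord.ToType, ∃ i, x < z → mu < kap i ∧ R f (U i) s0 (y x) (y z) := by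
      intro x z
      by_cases hxz : x < z
      · have := hyN x z hxz
        simp only [N, mem_ofPred_eq, not_and, not_forall, not_not] at this
        obtain ⟨i, hi1, hi2⟩ := this (hy0 z)
        exact ⟨i, fun _ => ⟨hi1, hi2⟩⟩
      · exact ⟨i0, fun h => absurd h hxz⟩
    choose c hc using hc
    have h1 : ∀ x, ∃ i, {z | z ∈ {z | x < z} ∧ c x z = i} ∈ U i0 := fun x =>
      piece (hU i0) (hI i0) (tail_mem (hU i0) x) (c x)
    choose d hd using h1
    obtain ⟨i, hi⟩ := piece (hU i0) (hI i0) (A := Set.univ) Filter.univ_mem d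
    have hW : #(mu.ord.ToType) < kap i0 := by rwa [mk_ord_toType]
    obtain ⟨j, hj0, hj1⟩ := seq (hU i0) hW (fun _ x _ => {z | z ∈ {z | x < z} ∧ c x z = i})
      (fun _ => {x | x ∈ Set.univ ∧ d x = i}) (fun _ => hi) (fun _ x => d x = i)
      (fun _ x hx => hx.2) (fun w v _ x hx => by
        have := hd x
        rwa [hx] at this)
    have hR : ∀ w v, w < v → mu < kap i ∧ R f (U i) s0 (y (j w)) (y (j v)) := by
      intro w v hwv
      obtain ⟨h1, h2⟩ := hj1 w v hwv
      have := hc (j w) (j v) h1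
      rwa [h2] at this
    by_cases hmu0 : ∃ w v : mu.ord.ToType, w < v
    · obtain ⟨w0, v0, hwv0⟩ := hmu0
      exact hno (free_of_chain (hU i) (hR w0 v0 hwv0).1 s0 (fun w => y (j w))
        (fun w => hy0 (j w) i) fun w v hwv => (hR w v hwv).2)
    · push Not at hmu0
      refine hno (free_of_chain (hU i0) hi0 s0 (fun w => y (j w)) (fun w => hy0 (j w) i0) ?_)
      intro w v hwv
      exact absurd hwv (not_lt.2 (hmu0 w v))
  obtain ⟨y, hy, hNy⟩ := hkey
  have hcard : #(N y) = Order.succ lam := by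
    refine le_antisymm ?_ (Order.succ_le_of_lt hNy)
    rw [← hS]
    exact mk_set_le _
  let B : N y → ∀ i, Set (kap i).ord.ToType := fun y' i =>
    if mu < kap i then {j | cp f s0 j y ∈ f (y' : S)} else Set.univ
  have hB : ∀ y' i, B y' i ∈ U i := by
    intro y' i
    by_cases hi : mu < kap i
    · simp only [B, if_pos hi]
      have h1 := y'.2.2 i hi
      have h2 := (Ultrafilter.compl_mem_iff_notMem).2 h1
      refine (U i).sets_of_superset h2 ?_
      intro j hj
      simpa using hj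
    · simp only [B, if_neg hi]
      exact Filter.univ_mem
  obtain ⟨Z, A, hZ, hA, hZA⟩ := hsel (N y) B hcard hB
  have hZ' : #(Subtype.val '' Z : Set S) = Order.succ lam := by
    rw [mk_image_eq Subtype.val_injective, hZ]
  have hlt := hcap _ hZ'
  set X : Set S := ⋂ x ∈ (Subtype.val '' Z : Set S), f x with hX
  obtain ⟨i1, hi1⟩ := hs (max #X mu) (max_lt hlt hmu)
  obtain ⟨i, hi⟩ := hA (kap i1) (hk i1)
  have hAi : #(A i) ≤ kap i := (mk_set_le _).trans_eq (mk_ord_toType _)
  have hmi : mu < kap i := ((le_max_right _ _).trans_lt hi1).trans_le (hi.trans hAi)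
  have hinj : Function.Injective fun j : (kap i).ord.ToType => cp f s0 j y := by
    intro j k hjk
    rcases lt_trichotomy j k with h' | h' | h'
    · exact absurd hjk (cp_inj (hy i) h')
    · exact h'
    · exact absurd hjk.symm (cp_inj (hy i) h')
  have hsub : (fun j : (kap i).ord.ToType => cp f s0 j y) '' A i ⊆ X := by
    rintro _ ⟨j, hj, rfl⟩
    rw [hX]
    refine mem_iInter₂.2 ?_
    rintro _ ⟨y', hy', rfl⟩
    have := hZA y' hy' i hj
    simp only [B, if_pos hmi] at this
    exact this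
  have hfin : #(A i) ≤ #X := by
    rw [← mk_image_eq hinj]
    exact mk_le_mk_of_subset hsub
  exact absurd (hi.trans hfin) (not_le.2 ((le_max_left _ _).trans_lt hi1))

/-- directedness modulo small indices implies the selection property -/
theorem selection_of_directed (hk : ∀ i, kap i < lam)
    (hs : ∀ c < lam, ∃ i, c < kap i) (hIl : #I < lam) (hl : ℵ₀ ≤ lam)
    (hU : ∀ i, IsMeasure (kap i) (U i)) (hdir : Directed lam kap U) : Selection lam kap U := by
  classical
  intro Y B hY hB
  obtain ⟨A, hA, hAB⟩ := hdir Y B hY hB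
  choose c hc hcA using hAB
  have hex : ∀ y, ∃ i, c y < kap i := fun y => hs (c y) (hc y)
  choose g hg using hex
  -- pigeonhole
  have hpig : ∃ i, lam < #{y | g y = i} := by
    by_contra hcon
    push Not at hcon
    have h1 : (Set.univ : Set Y) ⊆ ⋃ i, {y | g y = i} := fun y _ => mem_iUnion.2 ⟨g y, rfl⟩
    have h2 : #(Set.univ : Set Y) ≤ lam := by
      refine (mk_le_mk_of_subset h1).trans ((mk_iUnion_le _).trans ?_)
      exact (mul_le_mul' hIl.le (ciSup_le' fun i => hcon i)).trans (mul_eq_self hl).le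
    rw [mk_univ, hY] at h2
    exact absurd (Order.lt_succ lam) (not_lt.2 h2)
  obtain ⟨i1, hi1⟩ := hpig
  refine ⟨{y | g y = i1}, fun i => if kap i1 ≤ kap i then A i else ∅, ?_, ?_, ?_⟩
  · refine le_antisymm ?_ (Order.succ_le_of_lt hi1)
    rw [← hY]
    exact mk_set_le _
  · intro d hd
    obtain ⟨i, hi⟩ := hs (max d (kap i1)) (max_lt hd (hk i1))
    refine ⟨i, ?_⟩
    dsimp only
    rw [if_pos ((le_max_right _ _).trans hi.le), card_mem (hU i) (hA i)]
    exact (le_max_left _ _).trans hi.le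
  · intro y hy i
    dsimp only
    by_cases hi : kap i1 ≤ kap i
    · rw [if_pos hi]
      refine hcA y i ((hg y).trans_le ?_)
      rw [show g y = i1 from hy]
      exact hi
    · rw [if_neg hi]
      exact empty_subset _

/-- the cofinality of `lam` is at most `|I|` -/
theorem cof_le (hk : ∀ i, kap i < lam) (hs : ∀ c < lam, ∃ i, c < kap i) :
    lam.ord.cof ≤ #I := by
  have h1 : (⨆ i, (kap i).ord + 1) = lam.ord := by
    apply le_antisymm
    · refine ciSup_le' fun i => ?_
      have : (kap i).ord < lam.ord := ord_lt_ord.2 (hk i)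
      exact Order.add_one_le_of_lt this
    · refine le_of_forall_lt fun a ha => ?_
      rw [lt_ord] at ha
      obtain ⟨i, hi⟩ := hs _ ha
      have h2 : a < (kap i).ord := lt_ord.2 hi
      refine h2.trans_le ((Order.le_succ _).trans ?_)
      exact le_ciSup (f := fun i => (kap i).ord + 1) Ordinal.bddAbove_of_small i
  rw [← h1]
  exact Ordinal.cof_iSup_add_one_le _

end Main

/-- **Theorem** (singular limits of measurable cardinals, every cofinality). -/
theorem result (lam : Cardinal.{u}) (I : Type u) (kap : I → Cardinal.{u})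
    (U : ∀ i, Ultrafilter (kap i).ord.ToType)
    (hI : ∀ i, #I < kap i) (hk : ∀ i, kap i < lam) (hs : ∀ c < lam, ∃ i, c < kap i)
    (hU : ∀ i, IsMeasure (kap i) (U i)) (hsel : Selection lam kap U) :
    (∀ mu < lam, Arrow (Order.succ lam) (Order.succ lam) lam mu) ∧
      Arrow (Order.succ lam) (Order.succ lam) lam (Order.succ lam.ord.cof) := by
  refine ⟨fun mu hmu => main hI hk hs hU hsel hmu, ?_⟩
  by_cases h0 : lam = 0
  · subst h0
    intro S f hS _ hfc hcap
    have h1 : #(⋂ x ∈ (Set.univ : Set S), f x : Set S) < 0 := hcap Set.univ (by rw [mk_univ, hS])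
    exact absurd h1 not_lt_zero
  · obtain ⟨i, _⟩ := hs 0 (pos_iff_ne_zero.2 h0)
    exact main hI hk hs hU hsel
      ((Order.succ_le_of_lt ((cof_le hk hs).trans_lt (hI i))).trans_lt (hk i))

end Pool.Agent.Lib_MP_38e082_lm
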